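import Pool.Agent.H96.AL.Targets4

/-!
# MP_c9ef16_gt, geometric half: module CF, a conical function at every point
-/

open Topology Set Filter Real

namespace Pool.Agent.H39.AL

open Pool.Agent.H96.AL

/-- a finite family of positive numbers is bounded from below by a positive number -/
theorem exists_pos_le {ι : Type*} (s : Finset ι) (f : ι → ℝ) (h : ∀ i ∈ s, 0 < f i) :
    ∃ ρ : ℝ, 0 < ρ ∧ ∀ i ∈ s, ρ ≤ f i := by
  classical
  induction s using Finset.induction_on with
  | empty => exact ⟨1, one_pos, fun i hi => absurd hi (Finset.notMem_empty i)⟩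
  | insert a s ha ih =>
    obtain ⟨ρ, hρ, hρ'⟩ := ih fun i hi => h i (Finset.mem_insert_of_mem hi)
    refine ⟨min ρ (f a), lt_min hρ (h a (Finset.mem_insert_self a s)), fun i hi => ?_⟩
    rcases Finset.mem_insert.1 hi with rfl | hi
    · exact min_le_right _ _
    · exact (min_le_left _ _).trans (hρ' i hi)

/-- convexity of `cosh` -/
theorem cosh_sub_ge {u h : ℝ} (hu : 0 ≤ u) : cosh u - h * sinh u ≤ cosh (u - h) := by
  rw [cosh_sub]
  have h1 : 0 ≤ sinh u := sinh_nonneg_iff.2 hu
  have h2 : sinh u ≤ cosh u := (sinh_lt_cosh u).le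
  have h3 : 1 ≤ cosh h := one_le_cosh h
  have h4 : cosh h - sinh h = exp (-h) := cosh_sub_sinh h
  have h5 := add_one_le_exp (-h)
  nlinarith [mul_le_mul_of_nonneg_right h2 (sub_nonneg.2 h3)]

/-- the angle estimate -/
theorem cc_le {D a d e : ℝ} (haD : a ≤ D) (hd : 0 < d) (hda : d ≤ a / (4 * cosh D))
    (ha : 0 < a) (he : a - d / 2 ≤ e) : cc a d e ≤ 3 / 4 := by
  have hD : 1 ≤ cosh D := one_le_cosh D
  have hda' : d * (4 * cosh D) ≤ a := (le_div_iff₀ (by positivity)).1 hda
  have hda2 : d ≤ a := by nlinarith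
  have hsa : 0 < sinh a := sinh_pos_iff.2 ha
  have hsd : 0 < sinh d := sinh_pos_iff.2 hd
  have hda3 : a ≤ sinh a := self_le_sinh_iff.2 ha.le
  have hd3 : d ≤ sinh d := self_le_sinh_iff.2 hd.le
  have hca : cosh a ≤ cosh D := by
    rw [cosh_le_cosh, abs_of_pos ha, abs_of_pos (ha.trans_le haD)]
    exact haD
  have h1 : cosh a - d / 2 * sinh a ≤ cosh e := by
    refine (cosh_sub_ge (h := d / 2) ha.le).trans ?_
    rw [cosh_le_cosh, abs_of_nonneg (by linarith), abs_of_nonneg (by linarith)]
    exact he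
  have h2 : cosh d - 1 ≤ d * sinh d := by
    have := cosh_sub_ge (u := d) (h := d) hd.le
    rw [sub_self, cosh_zero] at this
    linarith
  have hca1 : 1 ≤ cosh a := one_le_cosh a
  unfold cc
  rw [div_le_iff₀ (mul_pos hsa hsd)]
  have h3 : cosh a * (cosh d - 1) ≤ 1 / 4 * (sinh a * sinh d) := by
    have e1 : cosh a * (cosh d - 1) ≤ cosh a * (d * sinh d) :=
      mul_le_mul_of_nonneg_left h2 (by linarith)
    have e2 : cosh a * d ≤ 1 / 4 * sinh a := by
      have : cosh a * d ≤ cosh D * d := mul_le_mul_of_nonneg_right hca hd.le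
      linarith
    have e3 : cosh a * d * sinh d ≤ 1 / 4 * sinh a * sinh d :=
      mul_le_mul_of_nonneg_right e2 hsd.le
    nlinarith
  have h4 : d / 2 * sinh a ≤ 1 / 2 * (sinh a * sinh d) := by
    have := mul_le_mul_of_nonneg_right hd3 hsa.le
    nlinarith
  nlinarith

section

variable {X : Type} [MetricSpace X]

/-- finitely many points towards which all directions at `x` point -/
theorem exists_finset {D : ℝ} (hX : Sp X D) (x : X) {N : ℕ}
    (hN : ∀ a : Fin N → X, (∀ i, a i ≠ x) →
      (∀ i j, i < j → dist x (a j) ≤ dist x (a i)) →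
      (∀ i j, i < j → cc (dist x (a i)) (dist x (a j)) (dist (a i) (a j)) ≤ 3 / 4) → False) :
    ∃ (A : Finset X) (ρ : ℝ), 0 < ρ ∧ (∀ a ∈ A, a ≠ x) ∧
      ∀ z, 0 < dist x z → dist x z < ρ → ∃ a ∈ A, dist a z ≤ dist a x - dist x z / 2 := by
  classical
  by_contra hcon
  push Not at hcon
  have key : ∀ k : ℕ, ∃ a : Fin k → X, (∀ i, a i ≠ x) ∧
      (∀ i j, i < j → dist x (a j) ≤ dist x (a i)) ∧
      (∀ i j, i < j → cc (dist x (a i)) (dist x (a j)) (dist (a i) (a j)) ≤ 3 / 4) := by
    intro k
    induction k with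
    | zero => exact ⟨fun i => i.elim0, fun i => i.elim0, fun i => i.elim0, fun i => i.elim0⟩
    | succ k ih =>
      obtain ⟨a, ha, hb, hc⟩ := ih
      have hD : 1 ≤ cosh D := one_le_cosh D
      have hpos : ∀ i, 0 < dist x (a i) := fun i => dist_pos.2 (ha i).symm
      obtain ⟨ρ, hρ, hρ'⟩ := exists_pos_le (Finset.univ : Finset (Fin k))
        (fun i => dist x (a i) / (4 * cosh D)) (fun i _ => div_pos (hpos i) (by positivity))
      obtain ⟨z, hz, hzρ, hz'⟩ := hcon (Finset.univ.image a) ρ hρ (by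
        intro b hb
        obtain ⟨i, -, rfl⟩ := Finset.mem_image.1 hb
        exact ha i)
      have hz2 : ∀ i, dist x z ≤ dist x (a i) / (4 * cosh D) := fun i =>
        hzρ.le.trans (hρ' i (Finset.mem_univ i))
      have hz3 : ∀ i, dist x z ≤ dist x (a i) := by
        intro i
        have h1 : dist x z * (4 * cosh D) ≤ dist x (a i) :=
          (le_div_iff₀ (by positivity)).1 (hz2 i)
        nlinarith
      have hz4 : ∀ i, cc (dist x (a i)) (dist x z) (dist (a i) z) ≤ 3 / 4 := by
        intro i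
        refine cc_le (hX.diam _ _) hz (hz2 i) (hpos i) ?_
        have := hz' (a i) (Finset.mem_image_of_mem a (Finset.mem_univ i))
        rw [dist_comm (a i) x] at this
        exact this.le
      refine ⟨Fin.snoc a z, fun i => ?_, fun i j => ?_, fun i j => ?_⟩
      · refine Fin.lastCases ?_ (fun i => ?_) i
        · rw [Fin.snoc_last]
          exact (dist_pos.1 hz).symm
        · rw [Fin.snoc_castSucc]
          exact ha i
      · refine Fin.lastCases ?_ (fun j => ?_) j
        · refine Fin.lastCases ?_ (fun i => ?_) i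
          · intro h
            exact absurd h (lt_irrefl _)
          · intro _
            rw [Fin.snoc_last, Fin.snoc_castSucc]
            exact hz3 i
        · refine Fin.lastCases ?_ (fun i => ?_) i
          · intro h
            exact absurd h (Fin.castSucc_lt_last j).not_gt
          · intro h
            rw [Fin.snoc_castSucc, Fin.snoc_castSucc]
            exact hb i j (Fin.castSucc_lt_castSucc_iff.1 h)
      · refine Fin.lastCases ?_ (fun j => ?_) j
        · refine Fin.lastCases ?_ (fun i => ?_) i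
          · intro h
            exact absurd h (lt_irrefl _)
          · intro _
            rw [Fin.snoc_last, Fin.snoc_castSucc]
            exact hz4 i
        · refine Fin.lastCases ?_ (fun i => ?_) i
          · intro h
            exact absurd h (Fin.castSucc_lt_last j).not_gt
          · intro h
            rw [Fin.snoc_castSucc, Fin.snoc_castSucc]
            exact hc i j (Fin.castSucc_lt_castSucc_iff.1 h)
  obtain ⟨a, h1, h2, h3⟩ := key N
  exact hN a h1 h2 h3

/-- the minimum of the functions `|a z|² / 2 - |a x|² / 2` -/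
theorem exists_min_fun (hSD : T_SD) (hGD : T_GD) (hGA : T_GA) (hSA : T_SA) {D : ℝ}
    (hX : Sp X D) (x : X) (A : Finset X) :
    ∃ F : X → ℝ, Lip D F ∧ SC (cosh D) F ∧ Good (cosh D ^ 2) F ∧ F x = 0 ∧
      ∀ a ∈ A, ∀ z, F z ≤ dist a z ^ 2 / 2 - dist a x ^ 2 / 2 := by
  classical
  have hD0 : 0 ≤ D := zero_le_one.trans hX.one_le
  have hc0 : 0 ≤ cosh D := (cosh_pos D).le
  have hc2 : 0 ≤ cosh D ^ 2 := by positivity
  induction A using Finset.induction_on with
  | empty =>
    refine ⟨fun _ => 0, fun y z => ?_, fun y z m t ht _ _ => ?_, fun E _ z p _ => ?_, rfl,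
      fun a ha => absurd ha (Finset.notMem_empty a)⟩
    · simp only [sub_self, abs_zero]
      positivity
    · have h1 : 0 ≤ t := ht.1
      have h2 : 0 ≤ 1 - t := by linarith [ht.2]
      have : 0 ≤ cosh D / 2 * t * (1 - t) * dist y z ^ 2 := by positivity
      simp only [mul_zero, add_zero]
      linarith
    · have : 0 ≤ cosh D ^ 2 * dist z p ^ 2 := by positivity
      show (0 : ℝ) - cosh D ^ 2 * dist z p ^ 2 ≤ 0
      linarith
  | insert a A ha ih =>
    obtain ⟨F, hF1, hF2, hF3, hF4, hF5⟩ := ih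
    set G : X → ℝ := fun z => dist a z ^ 2 / 2 - dist a x ^ 2 / 2 with hG
    have hG1 : Lip D G := by
      intro y z
      have := (hSD X D hX a).2 y z
      simp only [hG]
      rw [sub_sub_sub_cancel_right]
      exact this
    have hG2 : SC (cosh D) G := by
      intro y z m t ht h1 h2
      have := (hSD X D hX a).1 y z m t ht h1 h2
      simp only [hG] at this ⊢
      linarith
    have hG3 : Good (cosh D ^ 2) G := by
      intro E hE z p hp
      have := (hGD X D hX).1 a E hE z p hp
      simp only [hG] at this ⊢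
      linarith
    obtain ⟨s1, s2⟩ := hSA X F G D D (cosh D) (cosh D) 0 0 hD0 hD0 hc0 hc0 le_rfl
    have l1 := (s1 hF1 hG1).2.1
    have l2 := (s2 hF2 hG2).2.1
    have l3 := (hGA X F G (cosh D ^ 2) (cosh D ^ 2) 0 hc2 hc2 le_rfl hF3 hG3).2.1
    rw [max_self] at l1 l2 l3
    refine ⟨fun z => min (F z) (G z), l1, l2, l3, ?_, fun b hb z => ?_⟩
    · simp only [hF4, hG, sub_self, min_self]
    · rcases Finset.mem_insert.1 hb with rfl | hb
      · exact min_le_right _ _
      · exact (min_le_left _ _).trans (hF5 b hb z)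

end

/-- CF: a conical function at every point -/
theorem cf (hDR : T_DR) (hSD : T_SD) (hGD : T_GD) (hGA : T_GA) (hSA : T_SA) : T_CF := by
  intro X _ D hX hdim x
  obtain ⟨N, hN⟩ := hDR X D hX hdim
  obtain ⟨A, ρ, hρ, hAx, hA⟩ := exists_finset hX x (hN x)
  obtain ⟨F, hF1, hF2, hF3, hF4, hF5⟩ := exists_min_fun hSD hGD hGA hSA hX x A
  obtain ⟨c, hc, hc'⟩ := exists_pos_le A (fun a => dist a x / 4)
    (fun a ha => div_pos (dist_pos.2 (hAx a ha)) (by norm_num))
  refine ⟨F, c, ρ, hc, hρ, hF1, hF2, hF3, hF4, fun z hz => ?_⟩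
  rcases eq_or_lt_of_le (dist_nonneg : 0 ≤ dist x z) with h0 | h0
  · have : x = z := dist_eq_zero.1 h0.symm
    rw [← this, hF4, dist_self, mul_zero]
  · obtain ⟨a, ha, haz⟩ := hA z h0 hz
    have h1 := hF5 a ha z
    have h2 := hc' a ha
    have h3 : 0 ≤ dist a z := dist_nonneg
    have h4 : dist a z ^ 2 ≤ (dist a x - dist x z / 2) ^ 2 := pow_le_pow_left₀ h3 haz 2
    nlinarith [mul_pos hc h0]

end Pool.Agent.H39.AL
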